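import Pool.Agent.N708.MX.Stm

/-!
# Project MX, task UNIV: the ascending HNN extension by generators and relations
-/

set_option autoImplicit false

namespace Pool.Agent.N375.MX

open Pool.Agent.N708.MX

section

variable {K : Type} [Group K] (φ : K →* K)

/-- the relations -/
def rels : Set (FreeGroup (K ⊕ Unit)) :=
  {x | ∃ a b : K, x = FreeGroup.of (Sum.inl a) * FreeGroup.of (Sum.inl b) *
      (FreeGroup.of (Sum.inl (a * b)))⁻¹} ∪
  {x | ∃ a : K, x = (FreeGroup.of (Sum.inr ()))⁻¹ * FreeGroup.of (Sum.inl a) *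
      FreeGroup.of (Sum.inr ()) * (FreeGroup.of (Sum.inl (φ a)))⁻¹}

/-- the group -/
abbrev GG : Type := PresentedGroup (rels φ)

lemma of_mul (a b : K) :
    (PresentedGroup.of (rels := rels φ) (Sum.inl a)) * PresentedGroup.of (Sum.inl b) =
      PresentedGroup.of (Sum.inl (a * b)) := by
  have h : PresentedGroup.mk (rels φ) (FreeGroup.of (Sum.inl a) * FreeGroup.of (Sum.inl b) *
      (FreeGroup.of (Sum.inl (a * b)))⁻¹) = 1 :=
    PresentedGroup.one_of_mem (Or.inl ⟨a, b, rfl⟩)
  rw [map_mul, map_mul, map_inv, mul_inv_eq_one] at h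
  exact h

lemma of_conj (a : K) :
    (PresentedGroup.of (rels := rels φ) (Sum.inr ()))⁻¹ * PresentedGroup.of (Sum.inl a) *
      PresentedGroup.of (Sum.inr ()) = PresentedGroup.of (Sum.inl (φ a)) := by
  have h : PresentedGroup.mk (rels φ) ((FreeGroup.of (Sum.inr ()))⁻¹ * FreeGroup.of (Sum.inl a) *
      FreeGroup.of (Sum.inr ()) * (FreeGroup.of (Sum.inl (φ a)))⁻¹) = 1 :=
    PresentedGroup.one_of_mem (Or.inr ⟨a, rfl⟩)
  rw [map_mul, map_mul, map_mul, map_inv, map_inv, mul_inv_eq_one] at h
  exact h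

/-- the map of `K` -/
def io : K →* GG φ := MonoidHom.mk' (fun a => PresentedGroup.of (Sum.inl a))
  (fun a b => (of_mul φ a b).symm)

end

theorem t_univ : S_UNIV := by
  intro K _ _ φ
  refine ⟨GG φ, inferInstance, ?_, io φ, PresentedGroup.of (Sum.inr ()), ?_, ?_, ?_⟩
  · haveI : Countable (FreeGroup (K ⊕ Unit)) := by
      unfold FreeGroup
      infer_instance
    exact Function.Surjective.countable (f := PresentedGroup.mk (rels φ))
      (QuotientGroup.mk'_surjective _)
  · intro a
    exact of_conj φ a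
  · rw [eq_top_iff, ← PresentedGroup.closure_range_of (rels φ)]
    apply Subgroup.closure_mono
    rintro _ ⟨x, rfl⟩
    rcases x with a | u
    · exact Or.inl ⟨a, rfl⟩
    · exact Or.inr rfl
  · intro Q _ f t ht
    have hr : ∀ r ∈ rels φ, FreeGroup.lift (Sum.elim (fun a => f a) (fun _ => t)) r = 1 := by
      rintro r (⟨a, b, rfl⟩ | ⟨a, rfl⟩)
      · simp
      · simp only [map_mul, map_inv, FreeGroup.lift_apply_of, Sum.elim_inl, Sum.elim_inr]
        rw [ht a, mul_inv_cancel]
    refine ⟨PresentedGroup.toGroup hr, ?_, ?_⟩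
    · intro a
      exact PresentedGroup.toGroup.of hr
    · exact PresentedGroup.toGroup.of hr

end Pool.Agent.N375.MX
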